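import Mathlib
import Pool.Agent.R477.FC.Near2

/-!
# Solutions whose bases are near powers of one integer, the powers being unrestricted
-/

set_option autoImplicit false

namespace Pool.Agent.N741.FC

open Pool.Agent.R477.FC

/-- the value triples of the solutions with exponents `≥ 2` whose bases are, up to
`w / (log N) ^ κ`, `N` the largest base, powers of one integer `w ≥ 2` -/
def NearAll (κ : ℕ) : Set (ℕ × ℕ × ℕ) :=
  {v | ∃ x y z p q r w a b c : ℕ, 0 < x ∧ 0 < y ∧ 0 < z ∧ Nat.Coprime x y ∧ Nat.Coprime x z ∧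
    Nat.Coprime y z ∧ 2 ≤ p ∧ 2 ≤ q ∧ 2 ≤ r ∧ x ^ p + y ^ q = z ^ r ∧ v = (x ^ p, y ^ q, z ^ r) ∧
    2 ≤ w ∧ 1 ≤ a ∧ 1 ≤ b ∧ 1 ≤ c ∧
    |(x : ℝ) - (w : ℝ) ^ a| * Real.log (max x (max y z) : ℕ) ^ κ ≤ w ∧
    |(y : ℝ) - (w : ℝ) ^ b| * Real.log (max x (max y z) : ℕ) ^ κ ≤ w ∧
    |(z : ℝ) - (w : ℝ) ^ c| * Real.log (max x (max y z) : ℕ) ^ κ ≤ w}

theorem near_all : ∃ κ : ℕ, (NearAll κ).Finite := by
  obtain ⟨C₀, κ, hC₀⟩ := exps
  refine ⟨κ + 1, ?_⟩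
  -- the bound for `N`
  obtain ⟨N₀, hN₀⟩ : ∃ N₀ : ℕ, ∀ N : ℕ, N₀ ≤ N →
      64 < Real.log N ∧ 64 * ((C₀ : ℝ) + 1) * 5 ^ κ ≤ Real.log N := by
    have h1 : Filter.Tendsto (fun n : ℕ => Real.log (n : ℝ)) Filter.atTop Filter.atTop :=
      Real.tendsto_log_atTop.comp tendsto_natCast_atTop_atTop
    have h2 := h1.eventually_ge_atTop (max 65 (64 * ((C₀ : ℝ) + 1) * 5 ^ κ))
    obtain ⟨w₁, hw₁⟩ := Filter.eventually_atTop.1 h2
    refine ⟨w₁, fun w hw => ⟨?_, ?_⟩⟩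
    · exact lt_of_lt_of_le (by norm_num) ((le_max_left _ _).trans (hw₁ w hw))
    · exact (le_max_right _ _).trans (hw₁ w hw)
  obtain ⟨V, hV⟩ := vals_fin N₀
  refine ((Set.finite_Iic V).prod ((Set.finite_Iic V).prod (Set.finite_Iic V))).subset ?_
  rintro v ⟨x, y, z, p, q, r, w, a, b, c, hx0, hy0, hz0, hxy, hxz, hyz, hp2, hq2, hr2, heq, rfl, hw2,
    ha, hb, hc, hx, hy, hz⟩
  have hs : SSol x y z p q r 1 1 (-1) := ⟨hx0, hy0, hz0, hxy, hxz, hyz, hp2, hq2, hr2, Or.inl rfl,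
    Or.inl rfl, Or.inr rfl, by
      have : (x : ℤ) ^ p + (y : ℤ) ^ q = (z : ℤ) ^ r := by exact_mod_cast heq
      linarith⟩
  obtain ⟨N, hN⟩ : ∃ N : ℕ, N = max x (max y z) := ⟨_, rfl⟩
  rw [← hN] at hx hy hz
  have hxN : x ≤ N := hN ▸ le_max_left _ _
  have hyN : y ≤ N := hN ▸ (le_max_left _ _).trans (le_max_right _ _)
  have hzN : z ≤ N := hN ▸ (le_max_right _ _).trans (le_max_right _ _)
  rcases Nat.lt_or_ge N N₀ with hw | hw
  · obtain ⟨v1, v2, v3⟩ := hV x y z p q r 1 1 (-1) hs (by omega) (by omega) (by omega)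
    simp only [Set.mem_prod, Set.mem_Iic]
    exact ⟨v1, v2, v3⟩
  exfalso
  obtain ⟨hl64, hlC⟩ := hN₀ N hw
  set l : ℝ := Real.log N with hl
  have hl0 : 0 < l := by linarith
  have hl1 : 1 ≤ l := by linarith
  have hlk : 0 < l ^ (κ + 1) := by positivity
  have hlk1 : l ≤ l ^ (κ + 1) := le_self_pow₀ hl1 (by omega)
  -- the error
  set A : ℝ := (w : ℝ) / l ^ (κ + 1) with hA
  have hxA : |(x : ℝ) - (w : ℝ) ^ a| ≤ A := by rw [hA, le_div_iff₀ hlk]; exact hx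
  have hyA : |(y : ℝ) - (w : ℝ) ^ b| ≤ A := by rw [hA, le_div_iff₀ hlk]; exact hy
  have hzA : |(z : ℝ) - (w : ℝ) ^ c| ≤ A := by rw [hA, le_div_iff₀ hlk]; exact hz
  have hw2' : (2 : ℝ) ≤ w := by exact_mod_cast hw2
  -- `w` is large, as otherwise the bases are powers of `w`
  have hw64 : (64 : ℝ) ≤ w := by
    by_contra hcon
    push Not at hcon
    have hA1 : A < 1 := by
      rw [hA, div_lt_one hlk]
      linarith
    have hex : ∀ {u e : ℕ}, |(u : ℝ) - (w : ℝ) ^ e| ≤ A → u = w ^ e := by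
      intro u e hu
      rcases int_near (x := u) (w := w) (a := e) with h | h
      · exact_mod_cast h
      · exfalso
        linarith
    have h1 := hex hxA
    have h2 := hex hyA
    have h3 : w ∣ Nat.gcd x y := by
      rw [h1, h2]
      exact Nat.dvd_gcd (dvd_pow_self w (by omega)) (dvd_pow_self w (by omega))
    rw [hxy] at h3
    have := Nat.le_of_dvd one_pos h3
    omega
  have hAw : A ≤ w / 2 := by
    rw [hA]
    apply div_le_div_of_nonneg_left (by positivity) (by norm_num)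
    linarith
  have hlow : ∀ {u e : ℕ}, 1 ≤ e → |(u : ℝ) - (w : ℝ) ^ e| ≤ A → 2 ≤ u := by
    intro u e he hu
    have h1 : (w : ℝ) ≤ (w : ℝ) ^ e := le_self_pow₀ (by linarith) (by omega)
    have h3 := (abs_le.1 hu).1
    have h4 : (2 : ℝ) ≤ u := by linarith
    exact_mod_cast h4
  -- the exponents
  obtain ⟨s, hs'⟩ : ∃ s, s = Nat.log 2 N + 2 := ⟨_, rfl⟩
  have hNs : N ≤ 2 ^ s := by
    have h1 : N < 2 ^ (Nat.log 2 N + 1) := Nat.lt_pow_succ_log_self (by norm_num) _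
    rw [hs']
    exact h1.le.trans (Nat.pow_le_pow_right (by norm_num) (by omega))
  have hx2 := hlow ha hxA
  have hy2 := hlow hb hyA
  have hz2 := hlow hc hzA
  have hN2 : 2 ≤ N := hx2.trans hxN
  have hs5 : (s : ℝ) ≤ 5 * l := by
    have g3 : (2 : ℝ) ^ (Nat.log 2 N) ≤ N := by
      exact_mod_cast Nat.pow_log_le_self 2 (by omega)
    have g4 := Real.log_le_log (by positivity) g3
    rw [Real.log_pow] at g4
    have hlog2 : (0.6931471803 : ℝ) < Real.log 2 := Real.log_two_gt_d9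
    have hl' : (0 : ℝ) ≤ (Nat.log 2 N : ℝ) := by positivity
    rw [hs']
    push_cast
    nlinarith
  obtain ⟨d1, d2, d3⟩ := hC₀ s (by omega) x y z p q r 1 1 (-1) hs (hxN.trans hNs) (hyN.trans hNs)
    (hzN.trans hNs)
  have h1 := d1 hx2
  have h2 := d2 hy2
  have h3 := d3 hz2
  set L : ℕ := C₀ * s ^ κ + 1 with hL
  have hLl : 64 * (L : ℝ) ≤ l ^ (κ + 1) := by
    have h4 : (L : ℝ) ≤ ((C₀ : ℝ) + 1) * 5 ^ κ * l ^ κ := by
      have h5 : (1 : ℝ) ≤ (s : ℝ) ^ κ := one_le_pow₀ (by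
        have : 1 ≤ s := by omega
        exact_mod_cast this)
      have h6 : (s : ℝ) ^ κ ≤ (5 * l) ^ κ := pow_le_pow_left₀ (by positivity) hs5 κ
      have h7 : (L : ℝ) = C₀ * (s : ℝ) ^ κ + 1 := by rw [hL]; push_cast; ring
      rw [h7]
      calc (C₀ : ℝ) * (s : ℝ) ^ κ + 1 ≤ C₀ * (s : ℝ) ^ κ + (s : ℝ) ^ κ := by linarith
        _ = ((C₀ : ℝ) + 1) * (s : ℝ) ^ κ := by ring
        _ ≤ ((C₀ : ℝ) + 1) * (5 * l) ^ κ := by gcongr
        _ = _ := by rw [mul_pow]; ring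
    calc 64 * (L : ℝ) ≤ 64 * (((C₀ : ℝ) + 1) * 5 ^ κ * l ^ κ) := by linarith
      _ = (64 * ((C₀ : ℝ) + 1) * 5 ^ κ) * l ^ κ := by ring
      _ ≤ l * l ^ κ := mul_le_mul_of_nonneg_right hlC (by positivity)
      _ = _ := by ring
  have hLA : 64 * ((L : ℝ) * A) ≤ w := by
    rw [hA]
    calc 64 * ((L : ℝ) * (w / l ^ (κ + 1))) = (64 * L) * w / l ^ (κ + 1) := by ring
      _ ≤ l ^ (κ + 1) * w / l ^ (κ + 1) := by gcongr
      _ = w := by field_simp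
  have hL1 : (1 : ℝ) ≤ L := by
    have : 1 ≤ L := by omega
    exact_mod_cast this
  have hpL : (p : ℝ) ≤ L := by exact_mod_cast (by omega : p ≤ L)
  have hqL : (q : ℝ) ≤ L := by exact_mod_cast (by omega : q ≤ L)
  have hrL : (r : ℝ) ≤ L := by exact_mod_cast (by omega : r ≤ L)
  rcases le_total (y ^ q) (x ^ p) with h | h
  · exact near_core hw64 ha hb hc hxA hyA hzA hLA hL1 hpL hqL hrL hp2 hr2 hx0 hy0 heq h
  · exact near_core hw64 hb ha hc hyA hxA hzA hLA hL1 hqL hpL hrL hq2 hr2 hy0 hx0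
      (by rw [add_comm]; exact heq) h

end Pool.Agent.N741.FC
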